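import Pool.Agent.Helper16.MD.Stmts
import Pool.Agent.Helper40.MR.Defs

/-!
Module WMR: the theorem of Matomaki and Radziwill with a periodic weight.
-/

open Finset Filter
open scoped ComplexConjugate

namespace Pool.Agent.Helper16.MD

open Pool.Agent.Helper40.MR (res ST_NT)

theorem wmr_half (N : ℝ) (t : ℕ) : 2 * (N / 2 ^ (t + 1)) = N / 2 ^ t := by
  rw [pow_succ]
  field_simp

theorem wmr_part (N x : ℝ) : ∀ T : ℕ, N / 2 ^ T < x → x ≤ N →
    ∃ t < T, N / 2 ^ (t + 1) < x ∧ x ≤ 2 * (N / 2 ^ (t + 1)) := by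
  intro T
  induction T with
  | zero =>
    intro h1 h2
    rw [pow_zero, div_one] at h1
    exact absurd h1 (not_lt.mpr h2)
  | succ T ih =>
    intro h1 h2
    by_cases h : N / 2 ^ T < x
    · obtain ⟨t, ht, h3⟩ := ih h h2
      exact ⟨t, Nat.lt_succ_of_lt ht, h3⟩
    · refine ⟨T, Nat.lt_succ_self T, h1, ?_⟩
      rw [wmr_half]
      exact not_lt.mp h

theorem wmr_geo (N : ℝ) (T : ℕ) : ∑ t ∈ range T, N / 2 ^ (t + 1) = N - N / 2 ^ T := by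
  induction T with
  | zero => simp
  | succ T ih =>
    rw [sum_range_succ, ih, ← wmr_half N T]
    ring

theorem wmr_geo_le (N : ℝ) (hN : 0 ≤ N) (T : ℕ) : ∑ t ∈ range T, N / 2 ^ (t + 1) ≤ N := by
  rw [wmr_geo]
  have : 0 ≤ N / 2 ^ T := by positivity
  linarith

theorem wmr_shift (g : ℕ → ℝ) (hg : ∀ n, 0 ≤ g n) (N L j : ℕ) (hj : j < L) :
    ∑ m ∈ range N, g (m + j) ≤ ∑ n ∈ range (N + L), g n := by
  have h1 : ∑ m ∈ range N, g (m + j) = ∑ n ∈ Ico j (j + N), g n := by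
    rw [sum_Ico_eq_sum_range, Nat.add_sub_cancel_left]
    exact sum_congr rfl fun m _ => by rw [add_comm]
  rw [h1]
  refine sum_le_sum_of_subset_of_nonneg ?_ fun n _ _ => hg n
  intro n hn
  rw [mem_Ico] at hn
  rw [mem_range]
  omega

theorem wmr_shifts (g : ℕ → ℝ) (hg : ∀ n, 0 ≤ g n) (N L : ℕ) :
    ∑ m ∈ range N, ∑ j ∈ range L, g (m + j) ≤ L * ∑ n ∈ range (N + L), g n := by
  rw [sum_comm]
  calc ∑ j ∈ range L, ∑ m ∈ range N, g (m + j)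
      ≤ ∑ j ∈ range L, ∑ n ∈ range (N + L), g n :=
        sum_le_sum fun j hj => wmr_shift g hg N L j (mem_range.mp hj)
    _ = L * ∑ n ∈ range (N + L), g n := by rw [sum_const, card_range, nsmul_eq_mul]

theorem wmr_per (c : ℕ → ℂ) (q : ℕ) (hc : ∀ n, c (n + q) = c n) (m j : ℕ) :
    c (m + j) = c (m % q + j) := by
  have h : Function.Periodic (fun m => c (m + j)) q := by
    intro m
    change c (m + q + j) = c (m + j)
    rw [add_right_comm]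
    exact hc _
  exact (h.map_mod_nat m).symm

theorem wmr_res (r c : ℕ → ℂ) (q N L : ℕ) (B : ℝ) (hq : 1 ≤ q) (hc : ∀ n, c (n + q) = c n)
    (hc1 : ∀ n, ‖c n‖ ≤ 1)
    (hB : ∀ c' : ℕ → ℂ, (∀ j, ‖c' j‖ ≤ 1) → ∑ m ∈ range N, ‖∑ j ∈ range L, r (m + j) * c' j‖ ≤ B) :
    ∑ m ∈ range N, ‖∑ j ∈ range L, r (m + j) * c (m + j)‖ ≤ q * B := by
  calc ∑ m ∈ range N, ‖∑ j ∈ range L, r (m + j) * c (m + j)‖
      ≤ ∑ m ∈ range N, ∑ ρ ∈ range q, ‖∑ j ∈ range L, r (m + j) * c (ρ + j)‖ := by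
        refine sum_le_sum fun m _ => ?_
        have h1 : ∑ j ∈ range L, r (m + j) * c (m + j) =
            ∑ j ∈ range L, r (m + j) * c (m % q + j) :=
          sum_congr rfl fun j _ => by rw [wmr_per c q hc m j]
        rw [h1]
        exact single_le_sum (f := fun ρ => ‖∑ j ∈ range L, r (m + j) * c (ρ + j)‖)
          (fun ρ _ => norm_nonneg _) (mem_range.mpr (Nat.mod_lt m hq))
    _ = ∑ ρ ∈ range q, ∑ m ∈ range N, ‖∑ j ∈ range L, r (m + j) * c (ρ + j)‖ := sum_comm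
    _ ≤ ∑ ρ ∈ range q, B := sum_le_sum fun ρ _ => hB (fun j => c (ρ + j)) fun j => hc1 _
    _ = q * B := by rw [sum_const, card_range, nsmul_eq_mul]

theorem wmr_cs (F : ℕ → ℝ) (hF : ∀ m, 0 ≤ F m) (N : ℕ) (X A : ℝ) (hX : 1 / 2 ≤ X) (hA : 0 ≤ A)
    (h0 : ∀ m, ⌊2 * X⌋₊ + 1 ≤ m → F m = 0)
    (h2 : ∑ m ∈ range (⌊2 * X⌋₊ + 1), F m ^ 2 ≤ X * A ^ 2) :
    ∑ m ∈ range N, F m ≤ 2 * X * A := by
  have h3 : ∑ m ∈ range N, F m ≤ ∑ m ∈ range (⌊2 * X⌋₊ + 1), F m := by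
    have h4 : ∑ m ∈ range N, F m = ∑ m ∈ (range N).filter (fun m => m < ⌊2 * X⌋₊ + 1), F m := by
      rw [sum_filter]
      refine sum_congr rfl fun m _ => ?_
      by_cases h : m < ⌊2 * X⌋₊ + 1
      · rw [if_pos h]
      · rw [if_neg h]
        exact h0 m (not_lt.mp h)
    rw [h4]
    refine sum_le_sum_of_subset_of_nonneg ?_ fun n _ _ => hF n
    intro n hn
    exact mem_range.mpr (mem_filter.mp hn).2
  refine h3.trans ?_
  have h5 : (∑ m ∈ range (⌊2 * X⌋₊ + 1), F m) ^ 2 ≤ (2 * X * A) ^ 2 := by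
    have h6 := sq_sum_le_card_mul_sum_sq (s := range (⌊2 * X⌋₊ + 1)) (f := F)
    rw [card_range] at h6
    have h7 : ((⌊2 * X⌋₊ + 1 : ℕ) : ℝ) ≤ 4 * X := by
      push_cast
      have := Nat.floor_le (show (0 : ℝ) ≤ 2 * X by linarith)
      linarith
    calc (∑ m ∈ range (⌊2 * X⌋₊ + 1), F m) ^ 2
        ≤ ((⌊2 * X⌋₊ + 1 : ℕ) : ℝ) * ∑ m ∈ range (⌊2 * X⌋₊ + 1), F m ^ 2 := h6
      _ ≤ (4 * X) * (X * A ^ 2) := by
          refine mul_le_mul h7 h2 (sum_nonneg fun m _ => sq_nonneg _) (by linarith)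
      _ = (2 * X * A) ^ 2 := by ring
  have h8 : 0 ≤ 2 * X * A := by positivity
  exact (pow_le_pow_iff_left₀ (sum_nonneg fun m _ => hF m) h8 two_ne_zero).mp h5

theorem wmr_mu (n : ℕ) : ‖((ArithmeticFunction.moebius n : ℤ) : ℂ)‖ ≤ 1 := by
  have h := ArithmeticFunction.abs_moebius_le_one (n := n)
  have h2 : ‖((ArithmeticFunction.moebius n : ℤ) : ℂ)‖ = ((|ArithmeticFunction.moebius n| : ℤ) : ℝ) := by
    rw [Complex.norm_intCast, Int.cast_abs]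
  rw [h2]
  exact_mod_cast h

/-- the restricted function for the number `t` -/
noncomputable def wmrR (N : ℝ) (s : ℕ → Prop) (t n : ℕ) : ℂ :=
  res (fun n => N / 2 ^ (t + 1) < n ∧ (n : ℝ) ≤ 2 * (N / 2 ^ (t + 1)) ∧ s n)
    (fun n => (ArithmeticFunction.moebius n : ℂ)) n

open Classical in
/-- majorant of the rest -/
noncomputable def wmrB (N : ℝ) (s : ℕ → Prop) (T n : ℕ) : ℝ :=
  (if (n : ℝ) ≤ N / 2 ^ T then 1 else 0) + (if N < (n : ℝ) then 1 else 0) +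
    ∑ t ∈ range T, if N / 2 ^ (t + 1) < n ∧ (n : ℝ) ≤ 2 * (N / 2 ^ (t + 1)) ∧ ¬ s n then 1 else 0

theorem wmr_rest (N : ℝ) (hN : 0 ≤ N) (s : ℕ → Prop) (T n : ℕ) :
    ‖((ArithmeticFunction.moebius n : ℤ) : ℂ) - ∑ t ∈ range T, wmrR N s t n‖ ≤ wmrB N s T n := by
  classical
  have hB0 : ∀ t ∈ range T, (0 : ℝ) ≤
      if N / 2 ^ (t + 1) < n ∧ (n : ℝ) ≤ 2 * (N / 2 ^ (t + 1)) ∧ ¬ s n then 1 else 0 := by
    intro t _
    split_ifs
    · exact zero_le_one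
    · exact le_rfl
  have hB1 : (0 : ℝ) ≤ if (n : ℝ) ≤ N / 2 ^ T then 1 else 0 := by
    split_ifs
    · exact zero_le_one
    · exact le_rfl
  have hB2 : (0 : ℝ) ≤ if N < (n : ℝ) then 1 else 0 := by
    split_ifs
    · exact zero_le_one
    · exact le_rfl
  have hB3 := sum_nonneg hB0
  by_cases h : ∃ t ∈ range T, N / 2 ^ (t + 1) < n ∧ (n : ℝ) ≤ 2 * (N / 2 ^ (t + 1)) ∧ s n
  · obtain ⟨t, ht, h1, h2, h3⟩ := h
    have hsum : ∑ t ∈ range T, wmrR N s t n = ((ArithmeticFunction.moebius n : ℤ) : ℂ) := by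
      rw [sum_eq_single_of_mem t ht]
      · unfold wmrR res
        rw [if_pos ⟨h1, h2, h3⟩]
      · intro u _ hu
        unfold wmrR res
        refine if_neg ?_
        rintro ⟨h4, h5, -⟩
        rw [wmr_half] at h2 h5
        rcases lt_or_gt_of_ne hu with hlt | hlt
        · have : N / 2 ^ t ≤ N / 2 ^ (u + 1) :=
            div_le_div_of_nonneg_left hN (by positivity)
              (pow_le_pow_right₀ one_le_two (Nat.succ_le_of_lt hlt))
          linarith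
        · have : N / 2 ^ u ≤ N / 2 ^ (t + 1) :=
            div_le_div_of_nonneg_left hN (by positivity)
              (pow_le_pow_right₀ one_le_two (Nat.succ_le_of_lt hlt))
          linarith
    rw [hsum, sub_self, norm_zero]
    unfold wmrB
    linarith
  · have hsum : ∑ t ∈ range T, wmrR N s t n = 0 := by
      refine sum_eq_zero fun t ht => ?_
      unfold wmrR res
      exact if_neg fun h4 => h ⟨t, ht, h4⟩
    rw [hsum, sub_zero]
    refine (wmr_mu n).trans ?_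
    unfold wmrB
    by_cases h1 : (n : ℝ) ≤ N / 2 ^ T
    · rw [if_pos h1] at hB1 ⊢
      linarith
    by_cases h2 : N < (n : ℝ)
    · rw [if_pos h2] at hB2 ⊢
      linarith
    obtain ⟨t, ht, h3, h4⟩ := wmr_part N n T (not_le.mp h1) (not_lt.mp h2)
    have hs : ¬ s n := fun hs => h ⟨t, mem_range.mpr ht, h3, h4, hs⟩
    have h5 := single_le_sum hB0 (mem_range.mpr ht)
    rw [if_pos ⟨h3, h4, hs⟩] at h5
    linarith

theorem wmr_count (N L T : ℕ) (s : ℕ → Prop) (ε : ℝ)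
    (hs : ∀ t ∈ range T, (Nat.card {n : ℕ // (N : ℝ) / 2 ^ (t + 1) < n ∧
      (n : ℝ) ≤ 2 * ((N : ℝ) / 2 ^ (t + 1)) ∧ ¬ s n} : ℝ) ≤ ε * ((N : ℝ) / 2 ^ (t + 1))) (hε : 0 ≤ ε) :
    ∑ n ∈ range (N + L), wmrB N s T n ≤ (N : ℝ) / 2 ^ T + 1 + L + ε * N := by
  classical
  unfold wmrB
  rw [sum_add_distrib, sum_add_distrib]
  have h1 : ∑ n ∈ range (N + L), (if (n : ℝ) ≤ (N : ℝ) / 2 ^ T then (1 : ℝ) else 0) ≤
      (N : ℝ) / 2 ^ T + 1 := by
    rw [sum_ite, sum_const_zero, add_zero, sum_const, nsmul_eq_mul, mul_one]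
    have h2 : (filter (fun n : ℕ => (n : ℝ) ≤ (N : ℝ) / 2 ^ T) (range (N + L))).card ≤
        ⌊(N : ℝ) / 2 ^ T⌋₊ + 1 := by
      rw [← card_range (⌊(N : ℝ) / 2 ^ T⌋₊ + 1)]
      refine card_le_card fun n hn => ?_
      rw [mem_range]
      exact Nat.lt_succ_of_le (Nat.le_floor (mem_filter.mp hn).2)
    have h3 := Nat.floor_le (show (0 : ℝ) ≤ (N : ℝ) / 2 ^ T by positivity)
    have h4 : ((filter (fun n : ℕ => (n : ℝ) ≤ (N : ℝ) / 2 ^ T) (range (N + L))).card : ℝ) ≤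
        ((⌊(N : ℝ) / 2 ^ T⌋₊ + 1 : ℕ) : ℝ) := by exact_mod_cast h2
    push_cast at h4
    linarith
  have h2 : ∑ n ∈ range (N + L), (if (N : ℝ) < (n : ℝ) then (1 : ℝ) else 0) ≤ L := by
    rw [sum_ite, sum_const_zero, add_zero, sum_const, nsmul_eq_mul, mul_one]
    have h3 : (filter (fun n : ℕ => (N : ℝ) < (n : ℝ)) (range (N + L))).card ≤ L := by
      have h4 : L = (Ico N (N + L)).card := by
        rw [Nat.card_Ico, Nat.add_sub_cancel_left]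
      rw [h4]
      have h5 : filter (fun n : ℕ => (N : ℝ) < (n : ℝ)) (range (N + (Ico N (N + L)).card)) ⊆
          Ico N (N + L) := by
        intro n hn
        rw [← h4, mem_filter, mem_range] at hn
        rw [mem_Ico]
        have h6 : N < n := by exact_mod_cast hn.2
        exact ⟨h6.le, hn.1⟩
      exact card_le_card h5
    exact_mod_cast h3
  have h3 : ∑ n ∈ range (N + L), ∑ t ∈ range T,
      (if (N : ℝ) / 2 ^ (t + 1) < n ∧ (n : ℝ) ≤ 2 * ((N : ℝ) / 2 ^ (t + 1)) ∧ ¬ s n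
        then (1 : ℝ) else 0) ≤ ε * N := by
    rw [sum_comm]
    calc ∑ t ∈ range T, ∑ n ∈ range (N + L),
        (if (N : ℝ) / 2 ^ (t + 1) < n ∧ (n : ℝ) ≤ 2 * ((N : ℝ) / 2 ^ (t + 1)) ∧ ¬ s n
          then (1 : ℝ) else 0) ≤ ∑ t ∈ range T, ε * ((N : ℝ) / 2 ^ (t + 1)) := by
          refine sum_le_sum fun t ht => ?_
          rw [sum_ite, sum_const_zero, add_zero, sum_const, nsmul_eq_mul, mul_one]
          refine le_trans ?_ (hs t ht)
          have h4 : Nat.card {n : ℕ // (N : ℝ) / 2 ^ (t + 1) < n ∧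
              (n : ℝ) ≤ 2 * ((N : ℝ) / 2 ^ (t + 1)) ∧ ¬ s n} =
              (filter (fun n : ℕ => (N : ℝ) / 2 ^ (t + 1) < n ∧
                (n : ℝ) ≤ 2 * ((N : ℝ) / 2 ^ (t + 1)) ∧ ¬ s n)
                (range (⌊2 * ((N : ℝ) / 2 ^ (t + 1))⌋₊ + 1))).card := by
            refine Nat.subtype_card _ fun n => ?_
            rw [mem_filter, mem_range]
            constructor
            · exact fun h => h.2
            · exact fun h => ⟨Nat.lt_succ_of_le (Nat.le_floor h.2.1), h⟩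
          rw [h4]
          have h5 : (filter (fun n : ℕ => (N : ℝ) / 2 ^ (t + 1) < n ∧
                (n : ℝ) ≤ 2 * ((N : ℝ) / 2 ^ (t + 1)) ∧ ¬ s n) (range (N + L))) ⊆
              (filter (fun n : ℕ => (N : ℝ) / 2 ^ (t + 1) < n ∧
                (n : ℝ) ≤ 2 * ((N : ℝ) / 2 ^ (t + 1)) ∧ ¬ s n)
                (range (⌊2 * ((N : ℝ) / 2 ^ (t + 1))⌋₊ + 1))) := by
            intro n hn
            rw [mem_filter] at hn ⊢
            exact ⟨mem_range.mpr (Nat.lt_succ_of_le (Nat.le_floor hn.2.2.1)), hn.2⟩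
          exact_mod_cast card_le_card h5
      _ = ε * ∑ t ∈ range T, (N : ℝ) / 2 ^ (t + 1) := by rw [mul_sum]
      _ ≤ ε * N := mul_le_mul_of_nonneg_left (wmr_geo_le N (Nat.cast_nonneg N) T) hε
  linarith

theorem wmr_one (N L : ℕ) (s : ℕ → Prop) (t : ℕ) (κ A : ℝ) (hA : 0 ≤ A)
    (hA2 : A ^ 2 = (L : ℝ) ^ (2 - κ)) (hX : 1 / 2 ≤ (N : ℝ) / 2 ^ (t + 1))
    (h : ∀ c : ℕ → ℂ, (∀ j, ‖c j‖ ≤ 1) →
      ∑ m ∈ range (⌊2 * ((N : ℝ) / 2 ^ (t + 1))⌋₊ + 1), ‖∑ j ∈ range L,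
        res (fun n => (N : ℝ) / 2 ^ (t + 1) < n ∧ (n : ℝ) ≤ 2 * ((N : ℝ) / 2 ^ (t + 1)) ∧ s n)
          (fun n => (ArithmeticFunction.moebius n : ℂ)) (m + j) * c j‖ ^ 2 ≤
      ((N : ℝ) / 2 ^ (t + 1)) * (L : ℝ) ^ (2 - κ)) (c : ℕ → ℂ) (hc : ∀ j, ‖c j‖ ≤ 1) :
    ∑ m ∈ range N, ‖∑ j ∈ range L, wmrR N s t (m + j) * c j‖ ≤
      2 * ((N : ℝ) / 2 ^ (t + 1)) * A := by
  refine wmr_cs (fun m => ‖∑ j ∈ range L, wmrR N s t (m + j) * c j‖) (fun m => norm_nonneg _) N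
    ((N : ℝ) / 2 ^ (t + 1)) A hX hA ?_ ?_
  · intro m hm
    have h1 : ∑ j ∈ range L, wmrR N s t (m + j) * c j = 0 := by
      refine sum_eq_zero fun j _ => ?_
      have h2 : wmrR N s t (m + j) = 0 := by
        unfold wmrR res
        refine if_neg ?_
        rintro ⟨-, h3, -⟩
        have h4 := Nat.le_floor h3
        omega
      rw [h2, zero_mul]
    rw [h1, norm_zero]
  · rw [hA2]
    exact h c hc

theorem wmr_main (q N L T : ℕ) (s : ℕ → Prop) (ε κ A : ℝ) (hq : 1 ≤ q) (hε : 0 ≤ ε) (hA : 0 ≤ A)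
    (hA2 : A ^ 2 = (L : ℝ) ^ (2 - κ)) (hX : 1 / 2 ≤ (N : ℝ) / 2 ^ T)
    (h : ∀ t ∈ range T, (Nat.card {n : ℕ // (N : ℝ) / 2 ^ (t + 1) < n ∧
      (n : ℝ) ≤ 2 * ((N : ℝ) / 2 ^ (t + 1)) ∧ ¬ s n} : ℝ) ≤ ε * ((N : ℝ) / 2 ^ (t + 1)) ∧
      ∀ c : ℕ → ℂ, (∀ j, ‖c j‖ ≤ 1) →
      ∑ m ∈ range (⌊2 * ((N : ℝ) / 2 ^ (t + 1))⌋₊ + 1), ‖∑ j ∈ range L,
        res (fun n => (N : ℝ) / 2 ^ (t + 1) < n ∧ (n : ℝ) ≤ 2 * ((N : ℝ) / 2 ^ (t + 1)) ∧ s n)
          (fun n => (ArithmeticFunction.moebius n : ℂ)) (m + j) * c j‖ ^ 2 ≤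
      ((N : ℝ) / 2 ^ (t + 1)) * (L : ℝ) ^ (2 - κ))
    (c : ℕ → ℂ) (hc1 : ∀ n, ‖c n‖ ≤ 1) (hc : ∀ n, c (n + q) = c n) :
    ∑ m ∈ range N, ‖∑ j ∈ range L, ((ArithmeticFunction.moebius (m + j) : ℤ) : ℂ) * c (m + j)‖ ≤
      2 * q * N * A + L * ((N : ℝ) / 2 ^ T + 1 + L + ε * N) := by
  have hN0 : (0 : ℝ) ≤ N := Nat.cast_nonneg N
  have h1 : ∀ m, ‖∑ j ∈ range L, ((ArithmeticFunction.moebius (m + j) : ℤ) : ℂ) * c (m + j)‖ ≤
      ∑ t ∈ range T, ‖∑ j ∈ range L, wmrR N s t (m + j) * c (m + j)‖ +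
        ∑ j ∈ range L, wmrB N s T (m + j) := by
    intro m
    have h2 : ∑ j ∈ range L, ((ArithmeticFunction.moebius (m + j) : ℤ) : ℂ) * c (m + j) =
        ∑ t ∈ range T, ∑ j ∈ range L, wmrR N s t (m + j) * c (m + j) +
        ∑ j ∈ range L, (((ArithmeticFunction.moebius (m + j) : ℤ) : ℂ) -
          ∑ t ∈ range T, wmrR N s t (m + j)) * c (m + j) := by
      rw [sum_comm, ← sum_add_distrib]
      refine sum_congr rfl fun j _ => ?_
      rw [← sum_mul]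
      ring
    rw [h2]
    refine (norm_add_le _ _).trans (add_le_add (norm_sum_le _ _) ?_)
    refine (norm_sum_le _ _).trans (sum_le_sum fun j _ => ?_)
    rw [norm_mul]
    have h3 := wmr_rest N hN0 s T (m + j)
    calc ‖((ArithmeticFunction.moebius (m + j) : ℤ) : ℂ) - ∑ t ∈ range T, wmrR N s t (m + j)‖ *
        ‖c (m + j)‖ ≤
        ‖((ArithmeticFunction.moebius (m + j) : ℤ) : ℂ) - ∑ t ∈ range T, wmrR N s t (m + j)‖ * 1 :=
          mul_le_mul_of_nonneg_left (hc1 _) (norm_nonneg _)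
      _ ≤ wmrB N s T (m + j) := by rw [mul_one]; exact h3
  have hB0 : ∀ n, 0 ≤ wmrB N s T n := fun n => (norm_nonneg _).trans (wmr_rest N hN0 s T n)
  have h2 : ∑ m ∈ range N, ∑ t ∈ range T, ‖∑ j ∈ range L, wmrR N s t (m + j) * c (m + j)‖ ≤
      2 * q * N * A := by
    rw [sum_comm]
    calc ∑ t ∈ range T, ∑ m ∈ range N, ‖∑ j ∈ range L, wmrR N s t (m + j) * c (m + j)‖
        ≤ ∑ t ∈ range T, (q : ℝ) * (2 * ((N : ℝ) / 2 ^ (t + 1)) * A) := by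
          refine sum_le_sum fun t ht => ?_
          refine wmr_res (wmrR N s t) c q N L _ hq hc hc1 ?_
          refine wmr_one N L s t κ A hA hA2 ?_ (h t ht).2
          refine hX.trans ?_
          exact div_le_div_of_nonneg_left hN0 (by positivity)
            (pow_le_pow_right₀ one_le_two (Nat.succ_le_of_lt (mem_range.mp ht)))
      _ = 2 * q * A * ∑ t ∈ range T, (N : ℝ) / 2 ^ (t + 1) := by
          rw [mul_sum]
          exact sum_congr rfl fun t _ => by ring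
      _ ≤ 2 * q * A * N := by
          refine mul_le_mul_of_nonneg_left (wmr_geo_le N hN0 T) ?_
          positivity
      _ = 2 * q * N * A := by ring
  calc ∑ m ∈ range N, ‖∑ j ∈ range L, ((ArithmeticFunction.moebius (m + j) : ℤ) : ℂ) * c (m + j)‖
      ≤ ∑ m ∈ range N, (∑ t ∈ range T, ‖∑ j ∈ range L, wmrR N s t (m + j) * c (m + j)‖ +
        ∑ j ∈ range L, wmrB N s T (m + j)) := sum_le_sum fun m _ => h1 m
    _ = ∑ m ∈ range N, ∑ t ∈ range T, ‖∑ j ∈ range L, wmrR N s t (m + j) * c (m + j)‖ +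
        ∑ m ∈ range N, ∑ j ∈ range L, wmrB N s T (m + j) := sum_add_distrib
    _ ≤ 2 * q * N * A + L * ((N : ℝ) / 2 ^ T + 1 + L + ε * N) := by
        refine add_le_add h2 ((wmr_shifts _ hB0 N L).trans ?_)
        exact mul_le_mul_of_nonneg_left (wmr_count N L T s ε (fun t ht => (h t ht).1) hε)
          (Nat.cast_nonneg L)

theorem st_WMR (h : ST_NT) : ST_WMR := by
  intro q δ hq hδ
  have hq0 : (0 : ℝ) < q := by exact_mod_cast hq
  obtain ⟨T, hT⟩ := exists_pow_lt_of_lt_one (show (0 : ℝ) < min (δ / 8) 1 by positivity)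
    (show (1 / 2 : ℝ) < 1 by norm_num)
  obtain ⟨hT1, hT2⟩ := lt_min_iff.mp hT
  have hε : (0 : ℝ) < (1 / 2) ^ T := by positivity
  obtain ⟨κ, hκ, L₀, hL₀⟩ := h ((1 / 2) ^ T) hε hT2
  have hlim : Tendsto (fun L : ℕ => (L : ℝ) ^ (-(κ / 2))) atTop (nhds 0) :=
    (tendsto_rpow_neg_atTop (show (0 : ℝ) < κ / 2 by positivity)).comp tendsto_natCast_atTop_atTop
  have hev : ∀ᶠ L : ℕ in atTop, (L : ℝ) ^ (-(κ / 2)) < δ / (4 * q) :=
    hlim.eventually (gt_mem_nhds (by positivity))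
  obtain ⟨L, hL⟩ := ((hev.and (eventually_ge_atTop L₀)).and (eventually_ge_atTop 1)).exists
  obtain ⟨⟨hL1, hL2⟩, hL3⟩ := hL
  obtain ⟨Z₀, hZ₀⟩ := hL₀ L hL2
  have hLpos : (0 : ℝ) < L := by exact_mod_cast hL3
  obtain ⟨N₁, hN₁⟩ := exists_nat_ge (max Z₀ (max ((L + 1) * 4 / δ) (2 ^ T)))
  refine ⟨L, N₁, hL3, ?_⟩
  intro N c hN hc1 hc
  have hNr : (N₁ : ℝ) ≤ N := by exact_mod_cast hN
  have hN2 : Z₀ ≤ (N : ℝ) := (le_max_left _ _).trans (hN₁.trans hNr)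
  have hN3 : (L + 1) * 4 / δ ≤ (N : ℝ) :=
    (le_max_left _ _).trans ((le_max_right _ _).trans (hN₁.trans hNr))
  have hN4 : (2 : ℝ) ^ T ≤ (N : ℝ) :=
    (le_max_right _ _).trans ((le_max_right _ _).trans (hN₁.trans hNr))
  have hN0 : (0 : ℝ) ≤ N := Nat.cast_nonneg N
  obtain ⟨s, hs⟩ := hZ₀ N hN2
  have hA2 : ((L : ℝ) ^ (1 - κ / 2)) ^ 2 = (L : ℝ) ^ (2 - κ) := by
    rw [← Real.rpow_natCast, ← Real.rpow_mul hLpos.le]
    congr 1
    push_cast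
    ring
  have hA : (L : ℝ) ^ (1 - κ / 2) ≤ L * (δ / (4 * q)) := by
    rw [sub_eq_add_neg, Real.rpow_add hLpos, Real.rpow_one]
    exact mul_le_mul_of_nonneg_left hL1.le hLpos.le
  have hm := wmr_main q N L T s ((1 / 2) ^ T) κ ((L : ℝ) ^ (1 - κ / 2)) hq hε.le
    (Real.rpow_nonneg hLpos.le _) hA2 ?_ ?_ c hc1 hc
  · refine hm.trans ?_
    have e1 : 2 * q * N * (L : ℝ) ^ (1 - κ / 2) ≤ δ / 2 * L * N := by
      calc 2 * q * N * (L : ℝ) ^ (1 - κ / 2) ≤ 2 * q * N * (L * (δ / (4 * q))) :=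
            mul_le_mul_of_nonneg_left hA (by positivity)
        _ = δ / 2 * L * N := by
            field_simp
            ring
    have e2 : (N : ℝ) / 2 ^ T = (1 / 2) ^ T * N := by
      rw [one_div, inv_pow]
      field_simp
    have e3 : (1 / 2 : ℝ) ^ T * N ≤ δ / 8 * N := mul_le_mul_of_nonneg_right hT1.le hN0
    have e4 : (L : ℝ) + 1 ≤ δ / 4 * N := by
      rw [div_le_iff₀ hδ] at hN3
      linarith
    have e5 : (L : ℝ) * ((N : ℝ) / 2 ^ T + 1 + L + (1 / 2) ^ T * N) ≤ L * (δ / 2 * N) := by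
      refine mul_le_mul_of_nonneg_left ?_ hLpos.le
      rw [e2]
      linarith
    calc 2 * q * N * (L : ℝ) ^ (1 - κ / 2) + L * ((N : ℝ) / 2 ^ T + 1 + L + (1 / 2) ^ T * N)
        ≤ δ / 2 * L * N + L * (δ / 2 * N) := add_le_add e1 e5
      _ = δ * L * N := by ring
  · rw [le_div_iff₀ (by positivity)]
    linarith
  · intro t ht
    have h2 : (2 : ℝ) ^ (t + 1) ≤ 2 ^ T :=
      pow_le_pow_right₀ one_le_two (Nat.succ_le_of_lt (mem_range.mp ht))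
    refine hs _ ?_ ?_
    · rw [one_div, inv_pow, mul_comm, ← div_eq_mul_inv]
      exact div_le_div_of_nonneg_left hN0 (by positivity) h2
    · refine div_le_self hN0 ?_
      exact one_le_pow₀ one_le_two

end Pool.Agent.Helper16.MD
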